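import Pool.Agent.Work.MP_c9b226_an.Main

/-!
# Unions of conformally removable sets: blow-up in every direction at every place and scale
-/

set_option autoImplicit false

namespace Pool.Agent.Results.MP_c9b226_an.BlowUp

open MeasureTheory Set Filter Topology Metric
open Pool.Agent.Work.MP_c9b226_an

/-- `CHRemovable K`: every homeomorphism of the plane onto itself that is holomorphic off `K` is
holomorphic on the plane.

Let the closed set `E` be covered by countably many compact removable sets `K n` (for instance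
`E = K 0 ∪ K 1`), let `f` be continuous on the open set `V` and holomorphic on `V` minus `E` (for
instance a homeomorphism of the plane, with `V = ℂ`). Then on a relatively open dense part of the
set where `f` is not analytic the difference quotients of `f` blow up in every direction `u`, at
every point `p` and every scale `r`, quantitatively with respect to any Dini bound `κ` of `f` on the
ball and with an absolute constant `C`. -/
theorem result :
    ∃ C : ℝ, 0 < C ∧ ∀ (K : ℕ → Set ℂ) (E V : Set ℂ) (f : ℂ → ℂ),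
      (∀ n, IsCompact (K n)) → (∀ n, CHRemovable (K n)) → IsClosed E → E ⊆ ⋃ n, K n →
      IsOpen V → ContinuousOn f V → DifferentiableOn ℂ f (V \ E) →
      ∀ O : Set ℂ, IsOpen O → O ⊆ V → (∃ z ∈ O, ¬ AnalyticAt ℂ f z) →
      ∃ B : Set ℂ, IsOpen B ∧ B ⊆ O ∧ (∃ z ∈ B, ¬ AnalyticAt ℂ f z) ∧
      ∀ p ∈ B, ¬ AnalyticAt ℂ f p → ∀ r > 0, ball p r ⊆ B →
      ∀ κ : ℝ → ℝ, AntitoneOn κ (Ioi 0) → (∀ t > 0, 0 ≤ κ t) → IntegrableOn κ (Ioo 0 r) →
      (∀ z ∈ ball p r, ∀ w ∈ ball p r, z ≠ w → ‖f z - f w‖ ≤ κ ‖z - w‖ * ‖z - w‖) →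
      ∀ θ R : ℝ, 0 < θ → θ ≤ 1 → ∀ u : ℂ, ‖u‖ = 1 →
      ∃ z ∈ ball p r, ∃ w ∈ ball p r, z ≠ w ∧ R ≤ ‖(f z - f w) / (z - w)‖ ∧
        C * (∫ t in Ioo 0 r, κ t) / (θ * r) ≤ ‖(f z - f w) / (z - w)‖ ∧
        ‖(f z - f w) / (z - w) / (‖(f z - f w) / (z - w)‖ : ℂ) - u‖ ≤ θ := by
  obtain ⟨C, hC, hloc⟩ := local_thm
  refine ⟨C, hC, ?_⟩
  intro K E V f hKc hrem hE hEK hV hf hd O hO hOV hbad
  have hgood : ∀ z ∈ V \ E, AnalyticAt ℂ f z := by
    intro z hz
    exact hd.analyticAt ((hV.sdiff hE).mem_nhds hz)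
  have hbadK : ∀ z ∈ O, ¬ AnalyticAt ℂ f z → z ∈ ⋃ n, K n := by
    intro z hz hz'
    by_contra hn
    exact hz' (hgood z ⟨hOV hz, fun hzE => hn (hEK hzE)⟩)
  obtain ⟨n, B, hB, hBO, hBne, hBK⟩ := exists_portion (fun n => (hKc n).isClosed) hO hbadK hbad
  refine ⟨B, hB, hBO, hBne, ?_⟩
  intro p hp hpbad r hr hrB κ hκa hκ0 hκi hmod θ R hθ hθ1 u hu
  have hdn : DifferentiableOn ℂ f (ball p r \ K n) := by
    intro z hz
    have h2 : AnalyticAt ℂ f z := by
      by_contra h3
      exact hz.2 (hBK z (hrB hz.1) h3)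
    exact h2.differentiableAt.differentiableWithinAt
  by_contra hcon
  push Not at hcon
  apply hpbad
  set N : ℝ := |R| * θ / C with hN
  have hN0 : 0 ≤ N := by positivity
  have hI : ∫ t in Ioo 0 r, (κ t + N) = (∫ t in Ioo 0 r, κ t) + r * N := by
    rw [integral_add hκi (integrableOn_const (by simp)), setIntegral_const,
      Real.volume_real_Ioo, sub_zero, max_eq_left hr.le, smul_eq_mul]
  have hI0 : 0 ≤ ∫ t in Ioo 0 r, κ t :=
    setIntegral_nonneg measurableSet_Ioo fun t ht => hκ0 t ht.1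
  have hCN : C * (r * N) = |R| * (θ * r) := by
    rw [hN]
    field_simp
  have hθr : 0 < θ * r := mul_pos hθ hr
  have hno : ∀ z ∈ ball p r, ∀ w ∈ ball p r, z ≠ w →
      C * (∫ t in Ioo 0 r, (κ t + N)) / (θ * r) ≤ ‖(f z - f w) / (z - w)‖ →
      θ < ‖(f z - f w) / (z - w) / (‖(f z - f w) / (z - w)‖ : ℂ) - u‖ := by
    intro z hz w hw hzw hq
    rw [hI, div_le_iff₀ hθr] at hq
    refine hcon z hz w hw hzw ?_ ?_
    · refine (le_abs_self R).trans ?_
      refine le_of_mul_le_mul_right ?_ hθr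
      nlinarith [mul_nonneg hC.le hI0]
    · rw [div_le_iff₀ hθr]
      nlinarith [mul_nonneg (abs_nonneg R) hθr.le]
  have h1 := hloc (K n) (hKc n).isClosed (hrem n) f (fun t => κ t + N) p r θ u hr
    (hf.mono (hrB.trans (hBO.trans hOV))) hdn
    (fun s hs t ht hst => add_le_add_left (hκa hs ht hst) N)
    (fun t ht => add_nonneg (hκ0 t ht) hN0) (hκi.add (integrableOn_const (by simp)))
    (fun z hz w hw hzw => (hmod z hz w hw hzw).trans
      (mul_le_mul_of_nonneg_right (le_add_of_nonneg_right hN0) (norm_nonneg _)))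
    hθ hθ1 hu hno
  exact h1.analyticAt (isOpen_ball.mem_nhds (mem_ball_self (by positivity)))

end Pool.Agent.Results.MP_c9b226_an.BlowUp
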