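import Pool.Agent.Work.MP_c9b226_loc.T

/-!
# The union problem for conformally removable sets is equivalent to its mirror case and to locality

`CHRemovable K`: every homeomorphism of the plane onto itself that is holomorphic off `K` is
holomorphic on the plane.
-/

set_option autoImplicit false

open Set Metric Complex Filter Topology
open scoped ComplexConjugate
open Pool.Agent.Work.MP_c9b226_an (CHRemovable)

namespace Pool.Agent.Results.MP_c9b226_an.MirrorReduction

/-- The following are equivalent:
(a) the union of two removable compact sets is removable;
(b) this holds when the intersection of the two sets is totally disconnected;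
(c) `K ∪ conj K` is removable for every removable compact set `K` of the closed upper half plane
with `K ∩ ℝ` totally disconnected;
(d) a homeomorphism `f` between open sets of the plane that is holomorphic off a relatively closed
set `E` covered by countably many removable compact sets is holomorphic. -/
theorem result : List.TFAE [
    (∀ K L : Set ℂ, IsCompact K → IsCompact L → CHRemovable K → CHRemovable L →
      CHRemovable (K ∪ L)),
    (∀ K L : Set ℂ, IsCompact K → IsCompact L → IsTotallyDisconnected (K ∩ L) →
      CHRemovable K → CHRemovable L → CHRemovable (K ∪ L)),
    (∀ K : Set ℂ, IsCompact K → (∀ z ∈ K, 0 ≤ z.im) →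
      IsTotallyDisconnected (K ∩ {z | z.im = 0}) → CHRemovable K →
      CHRemovable (K ∪ {z | conj z ∈ K})),
    (∀ K : ℕ → Set ℂ, (∀ n, IsCompact (K n)) → (∀ n, CHRemovable (K n)) →
      ∀ (f : OpenPartialHomeomorph ℂ ℂ) (E : Set ℂ), E ⊆ ⋃ n, K n → IsOpen (f.source \ E) →
      DifferentiableOn ℂ f (f.source \ E) → DifferentiableOn ℂ f f.source)] :=
  Pool.Agent.Loc226.main_tfae

end Pool.Agent.Results.MP_c9b226_an.MirrorReduction
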